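import Pool.Agent.helper26.T5.SpecH

set_option autoImplicit false

/-!
# T5, row HFT: the large conductors
-/

namespace Pool.Agent.helper26.T5

open Finset NumberField Pool.Agent.helper3.FT Pool.Agent.helper47.RA Pool.Agent.T5
open Pool.Agent.helper28.LT (rad)

/-- the expansion and the sum over `f` -/
theorem HFT_sum (s : Finset ℕ) (hs : ∀ f ∈ s, 1 < f) (K A B : ℝ) :
    ∑ f ∈ s, K / (f : ℝ) ^ 2 * (1 + A * ((f : ℝ) / rad f)) * (1 + B * ((f : ℝ) / rad f)) =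
      K * (∑ f ∈ s, 1 / (f : ℝ) ^ 2 + (A + B) * ∑ f ∈ s, 1 / ((f : ℝ) * rad f) +
        A * B * ∑ f ∈ s, 1 / (rad f : ℝ) ^ 2) := by
  rw [Finset.mul_sum, Finset.mul_sum, ← Finset.sum_add_distrib, ← Finset.sum_add_distrib,
    Finset.mul_sum]
  refine Finset.sum_congr rfl ?_
  intro f hf
  have h1 : (f : ℝ) ≠ 0 := by
    have := hs f hf
    exact_mod_cast (by omega : f ≠ 0)
  have h2 : (rad f : ℝ) ≠ 0 := by
    have : rad f ≠ 0 := by
      unfold Pool.Agent.helper28.LT.rad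
      exact Finset.prod_ne_zero_iff.mpr fun p hp => (Nat.prime_of_mem_primeFactors hp).ne_zero
    exact_mod_cast this
  field_simp
  ring

/-- the numbers attached to one tuple -/
theorem HFT_tup (κ N Y X : ℝ) (hκ : 0 < κ) (hN : 1 ≤ N) (hY : 0 < Y) (hX : 0 < X) (t : Tpl)
    (ht : Cen κ N Y X t) :
    IsT t ∧ 0 < t.2.2.2 ∧ (t.2.2.2 : ℝ) ≤ Y ∧ 0 < lam t ∧ (lam t : ℝ) ≤ X ∧
      N / 2 < -(dis t : ℝ) ∧ -(dis t : ℝ) ≤ N := by
  have hNp : 0 < N := by linarith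
  refine ⟨ht.tt, ?_, ht.z2, ?_, ?_, ht.d1, ht.d2⟩
  · have : (0 : ℝ) < t.2.2.2 := by linarith [ht.z1]
    exact_mod_cast this
  · have : (0 : ℝ) < lam t := lt_of_lt_of_le (mul_pos hκ hX) ht.l1
    exact_mod_cast this
  · have h1 : √(-(dis t : ℝ)) ≤ √N := Real.sqrt_le_sqrt ht.d2
    have h2 : (lam t : ℝ) * √N ≤ X * √N := ht.l2.trans (by gcongr)
    exact le_of_mul_le_mul_right h2 (Real.sqrt_pos.mpr hNp)

theorem HFT_f (N : ℝ) (f : ℕ) (D₀ D : ℤ) (hN : 1 ≤ N) (h1 : N / 2 < -(D : ℝ)) (h2 : -(D : ℝ) ≤ N)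
    (h : D = D₀ * (f : ℤ) ^ 2) : (f : ℝ) ^ 2 ≤ N := by
  have hD : D < 0 := by
    have : (D : ℝ) < 0 := by linarith
    exact_mod_cast this
  have hD0 : D₀ ≤ -1 := by
    by_contra hc
    push Not at hc
    have : 0 ≤ D := by
      rw [h]
      have : 0 ≤ D₀ := by omega
      positivity
    omega
  have h3 : (f : ℤ) ^ 2 ≤ -D := by
    rw [h]
    nlinarith [sq_nonneg (f : ℤ)]
  have h4 : ((f : ℝ)) ^ 2 ≤ -(D : ℝ) := by exact_mod_cast h3
  linarith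

theorem hft (h1 : HSD) (h2 : HSM) : HFT := by
  classical
  intro δ hδ κ hκ
  obtain ⟨C₁, hC₁, hsd⟩ := h1 (δ / 10000) (δ / 10 ^ 7) (by positivity) (by positivity)
  obtain ⟨C₂, hC₂, hsm⟩ := h2 (δ / 10000) (δ / 10 ^ 7) (by positivity) (by positivity)
  set C₃ : ℝ := 2 * C₁ + 18 * (C₁ * C₂) + 81 * (C₁ * C₂) with hC₃
  have hC₃p : 1 ≤ C₃ := by
    have : 0 ≤ C₁ * C₂ := by positivity
    rw [hC₃]; linarith
  set e : ℝ := δ / 10000 - 3 * (δ / 10 ^ 7) - δ / 20000 with he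
  have hep : 0 < e := by
    rw [he]; linarith
  refine ⟨δ / 20000, max 1 (max (C₃ ^ (1 / e)) (5 ^ (1 / (δ / 10000)))), by positivity, ?_⟩
  intro N Y hN hY1 hY2 F hF
  have hN1 : 1 ≤ N := (le_max_left _ _).trans hN
  have hNp : 0 < N := by linarith
  have hNC : C₃ ≤ N ^ e := by
    have h : C₃ ^ (1 / e) ≤ N := ((le_max_left _ _).trans (le_max_right _ _)).trans hN
    calc C₃ = (C₃ ^ (1 / e)) ^ e := by
          rw [← Real.rpow_mul (by linarith), one_div, inv_mul_cancel₀ hep.ne', Real.rpow_one]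
      _ ≤ N ^ e := Real.rpow_le_rpow (by positivity) h hep.le
  have hN5 : 5 ≤ N ^ (δ / 10000) := by
    have hη : 0 < δ / 10000 := by positivity
    have h : (5 : ℝ) ^ (1 / (δ / 10000)) ≤ N :=
      ((le_max_right _ _).trans (le_max_right _ _)).trans hN
    calc (5 : ℝ) = (5 ^ (1 / (δ / 10000))) ^ (δ / 10000) := by
          rw [← Real.rpow_mul (by norm_num), one_div, inv_mul_cancel₀ hη.ne', Real.rpow_one]
      _ ≤ N ^ (δ / 10000) := Real.rpow_le_rpow (by positivity) h hη.le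
  have hYp : 0 < Y := lt_of_lt_of_le (by positivity) hY1
  set X : ℝ := N ^ (1 / 2 + δ / 100) with hX
  have hXp : 0 < X := by positivity
  have hYN2 : Y ≤ √N := by
    rw [Real.sqrt_eq_rpow]
    exact hY2.trans (Real.rpow_le_rpow_of_exponent_le hN1 (by linarith))
  have hYX : Y ≤ X := hY2.trans (Real.rpow_le_rpow_of_exponent_le hN1 (by linarith))
  have hYN : Y ≤ N := by
    calc Y ≤ N ^ (1 / 2 - δ) := hY2
      _ ≤ N ^ (1 : ℝ) := Real.rpow_le_rpow_of_exponent_le hN1 (by linarith)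
      _ = N := Real.rpow_one N
  have hp₀ : 1 ≤ X / Y := by rw [le_div_iff₀ hYp]; linarith
  -- choose the conductors
  choose! ff hff using fun t (ht : t ∈ F) => (hF t ht).2
  choose! D₀ hD using hff
  set s : Finset ℕ := F.image ff with hs
  have hsp : ∀ f ∈ s, X / Y < f ∧ (f : ℝ) ^ 2 ≤ N ∧
      ∀ p : ℕ, p.Prime → p ∣ f → N ^ (δ / 10000) < p := by
    intro f hf
    obtain ⟨t, ht, rfl⟩ := Finset.mem_image.mp hf
    obtain ⟨a1, a2, a3, a4⟩ := hD t ht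
    have hc := (hF t ht).1
    exact ⟨a4, HFT_f N (ff t) (D₀ t) (dis t) hN1 hc.d1 hc.d2 a2, a3⟩
  have hs1 : ∀ f ∈ s, 1 < f := by
    intro f hf
    have : (1 : ℝ) < f := lt_of_le_of_lt hp₀ (hsp f hf).1
    exact_mod_cast this
  have hone : ∀ f ∈ s, ((F.filter fun t => ff t = f).card : ℝ) ≤
      C₁ * N ^ (1 + 2 * (δ / 10 ^ 7)) / (f : ℝ) ^ 2 * (1 + 9 * Y / √N * ((f : ℝ) / rad f)) *
        (1 + 9 * X / √N * ((f : ℝ) / rad f)) := by
    intro f hf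
    have h := hsd N Y X f (hs1 f hf) (hsp f hf).2.1 hYp hYN hXp hN5 (hsp f hf).2.2
      (F.filter fun t => ff t = f) (by
        intro t ht
        obtain ⟨htF, htf⟩ := Finset.mem_filter.mp ht
        obtain ⟨b1, b2, b3, b4, b5, b6, b7⟩ := HFT_tup κ N Y X hκ hN1 hYp hXp t (hF t htF).1
        obtain ⟨a1, a2, a3, a4⟩ := hD t htF
        refine ⟨b1, b2, b3, b4, b5, b6, b7, D₀ t, a1, ?_⟩
        rw [← htf]
        exact a2)
    have e1 : 9 * Y * ((f : ℝ) / rad f) / √N = 9 * Y / √N * ((f : ℝ) / rad f) := by ring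
    have e2 : 9 * X * ((f : ℝ) / rad f) / √N = 9 * X / √N * ((f : ℝ) / rad f) := by ring
    rw [e1, e2] at h
    exact h
  have hcard : (F.card : ℝ) = ∑ f ∈ s, ((F.filter fun t => ff t = f).card : ℝ) := by
    rw [Finset.card_eq_sum_card_image ff F]
    push_cast
    rfl
  have hsum := Finset.sum_le_sum hone
  rw [← hcard, HFT_sum s hs1] at hsum
  obtain ⟨m1, m2, m3⟩ := hsm N (X / Y) hN1 hp₀ s hsp
  have hsq : 0 < √N := Real.sqrt_pos.mpr hNp
  have hA : 9 * Y / √N ≤ 9 := by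
    rw [div_le_iff₀ hsq]; linarith
  have hBe : 9 * X / √N = 9 * N ^ (δ / 100) := by
    rw [div_eq_iff hsq.ne', hX, Real.rpow_add hNp, Real.sqrt_eq_rpow]
    ring
  have hd1 : 1 ≤ N ^ (δ / 100) := Real.one_le_rpow hN1 (by positivity)
  have hAB : 9 * Y / √N + 9 * X / √N ≤ 18 * N ^ (δ / 100) := by
    rw [hBe]; linarith
  have hAB2 : 9 * Y / √N * (9 * X / √N) = 81 * (Y * X / N) := by
    have : √N * √N = N := Real.mul_self_sqrt hNp.le
    rw [div_mul_div_comm, this]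
    ring
  set K : ℝ := C₁ * N ^ (1 + 2 * (δ / 10 ^ 7)) with hK
  have hKp : 0 ≤ K := by positivity
  have hAp : 0 ≤ 9 * Y / √N + 9 * X / √N := by positivity
  have hABp : 0 ≤ 9 * Y / √N * (9 * X / √N) := by positivity
  have step : (F.card : ℝ) ≤ K * (2 / (X / Y) + 18 * N ^ (δ / 100) *
      (C₂ * N ^ (δ / 10 ^ 7) / (X / Y)) + 81 * (Y * X / N) *
      (C₂ * N ^ (δ / 10 ^ 7 - δ / 10000))) := by
    refine hsum.trans ?_
    refine mul_le_mul_of_nonneg_left ?_ hKp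
    refine add_le_add (add_le_add m1 ?_) ?_
    · exact mul_le_mul hAB m2 (Finset.sum_nonneg fun f _ => by positivity) (by positivity)
    · rw [← hAB2]
      exact mul_le_mul_of_nonneg_left m3 hABp
  -- powers of `N`
  have hXX : X * X = N * N ^ (2 * (δ / 100)) := by
    rw [hX, ← Real.rpow_add hNp, ← Real.rpow_one_add' hNp.le (by positivity)]
    congr 1
    ring
  have t1 : K * (2 / (X / Y)) = 2 * C₁ * (Y * X) * N ^ (2 * (δ / 10 ^ 7) - 2 * (δ / 100)) := by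
    rw [Real.rpow_sub hNp, hK, Real.rpow_add hNp, Real.rpow_one]
    have : N ^ (2 * (δ / 100)) ≠ 0 := by positivity
    field_simp
    rw [show X ^ 2 = X * X by ring, hXX]
    rw [show 2 * δ / 100 = 2 * (δ / 100) by ring]
  have hYXp : 0 < Y * X := by positivity
  have r1 : N ^ (2 * (δ / 10 ^ 7) - 2 * (δ / 100)) ≤ N ^ (3 * (δ / 10 ^ 7) - δ / 10000) :=
    Real.rpow_le_rpow_of_exponent_le hN1 (by linarith)
  have r2 : N ^ (3 * (δ / 10 ^ 7) - δ / 100) ≤ N ^ (3 * (δ / 10 ^ 7) - δ / 10000) :=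
    Real.rpow_le_rpow_of_exponent_le hN1 (by linarith)
  have s1 : K * (2 / (X / Y)) ≤ 2 * C₁ * (Y * X) * N ^ (3 * (δ / 10 ^ 7) - δ / 10000) := by
    rw [t1]; gcongr
  have t2 : K * (18 * N ^ (δ / 100) * (C₂ * N ^ (δ / 10 ^ 7) / (X / Y))) =
      18 * (C₁ * C₂) * (Y * X) * N ^ (3 * (δ / 10 ^ 7) - δ / 100) := by
    have e1 : K * (18 * N ^ (δ / 100) * (C₂ * N ^ (δ / 10 ^ 7) / (X / Y))) =
        (K * (2 / (X / Y))) * (9 * C₂ * (N ^ (δ / 100) * N ^ (δ / 10 ^ 7))) := by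
      ring
    rw [e1, t1, ← Real.rpow_add hNp]
    have e2 : N ^ (3 * (δ / 10 ^ 7) - δ / 100) =
        N ^ (2 * (δ / 10 ^ 7) - 2 * (δ / 100)) * N ^ (δ / 100 + δ / 10 ^ 7) := by
      rw [← Real.rpow_add hNp]
      congr 1
      ring
    rw [e2]
    ring
  have s2 : K * (18 * N ^ (δ / 100) * (C₂ * N ^ (δ / 10 ^ 7) / (X / Y))) ≤
      18 * (C₁ * C₂) * (Y * X) * N ^ (3 * (δ / 10 ^ 7) - δ / 10000) := by
    rw [t2]; gcongr
  have t3 : K * (81 * (Y * X / N) * (C₂ * N ^ (δ / 10 ^ 7 - δ / 10000))) =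
      81 * (C₁ * C₂) * (Y * X) * N ^ (3 * (δ / 10 ^ 7) - δ / 10000) := by
    have e2 : N ^ (3 * (δ / 10 ^ 7) - δ / 10000) =
        N ^ (2 * (δ / 10 ^ 7)) * N ^ (δ / 10 ^ 7 - δ / 10000) := by
      rw [← Real.rpow_add hNp]
      congr 1
      ring
    rw [e2, hK, Real.rpow_add hNp, Real.rpow_one]
    field_simp
  have fin : (F.card : ℝ) ≤ C₃ * (Y * X) * N ^ (3 * (δ / 10 ^ 7) - δ / 10000) := by
    refine step.trans ?_
    rw [mul_add, mul_add, t3]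
    rw [hC₃]
    linarith
  have last : C₃ * N ^ (3 * (δ / 10 ^ 7) - δ / 10000) ≤ N ^ (-(δ / 20000)) := by
    calc C₃ * N ^ (3 * (δ / 10 ^ 7) - δ / 10000) ≤ N ^ e * N ^ (3 * (δ / 10 ^ 7) - δ / 10000) := by
          gcongr
      _ = N ^ (-(δ / 20000)) := by
          rw [← Real.rpow_add hNp, he]
          congr 1
          ring
  calc (F.card : ℝ) ≤ C₃ * (Y * X) * N ^ (3 * (δ / 10 ^ 7) - δ / 10000) := fin
    _ = (C₃ * N ^ (3 * (δ / 10 ^ 7) - δ / 10000)) * (Y * X) := by ring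
    _ ≤ N ^ (-(δ / 20000)) * (Y * X) := mul_le_mul_of_nonneg_right last hYXp.le

end Pool.Agent.helper26.T5
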