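import Pool.Agent.helper26.T5.SpecB

set_option autoImplicit false

/-! # t5:LBA. A basis of an ideal -/

namespace Pool.Agent.helper26.T5

open NumberField Pool.Agent.helper3.FT Pool.Agent.helper47.RA Pool.Agent.T5

variable {K : Type} [Field K] [NumberField K]

theorem LBA_basis (Q : QF K) : ∃ B : Module.Basis (Fin 2) ℤ (𝓞 K), B 0 = 1 ∧ B 1 = Q.ω := by
  have hli : LinearIndependent ℤ ![(1 : 𝓞 K), Q.ω] := by
    rw [LinearIndependent.pair_iff]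
    intro s t h
    have h1 : ((s : ℤ) : 𝓞 K) + t * Q.ω = ((0 : ℤ) : 𝓞 K) + (0 : ℤ) * Q.ω := by
      rw [zsmul_eq_mul, zsmul_eq_mul, mul_one] at h
      rw [h]
      push_cast
      ring
    exact Q.lin h1
  have hsp : ⊤ ≤ Submodule.span ℤ (Set.range ![(1 : 𝓞 K), Q.ω]) := by
    intro a _
    obtain ⟨x, y, h⟩ := Q.hspan a
    rw [Matrix.range_cons, Matrix.range_cons, Matrix.range_empty, Set.union_empty,
      Set.singleton_union, Submodule.mem_span_pair]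
    refine ⟨x, y, ?_⟩
    rw [h, zsmul_eq_mul, zsmul_eq_mul, mul_one]
  refine ⟨Module.Basis.mk hli hsp, ?_, ?_⟩
  · rw [Module.Basis.mk_apply]
    rfl
  · rw [Module.Basis.mk_apply]
    rfl

theorem LBA_repr {Q : QF K} (B : Module.Basis (Fin 2) ℤ (𝓞 K)) (h0 : B 0 = 1) (h1 : B 1 = Q.ω)
    (x y : ℤ) : B.repr ((x : 𝓞 K) + y * Q.ω) 0 = x ∧ B.repr ((x : 𝓞 K) + y * Q.ω) 1 = y := by
  have h : (x : 𝓞 K) + y * Q.ω = x • B 0 + y • B 1 := by
    rw [h0, h1, zsmul_eq_mul, zsmul_eq_mul, mul_one]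
  rw [h, map_add, map_smul, map_smul, B.repr_self, B.repr_self]
  constructor
  · simp
  · simp

theorem lba : LBA := by
  intro K _ _ Q I hI
  -- the second coordinates
  obtain ⟨c, hc⟩ := Int.subgroup_cyclic ((Submodule.toAddSubgroup I).map (AddMonoidHom.mk' Q.Y Q.Y_add))
  obtain ⟨b, hb⟩ := Int.subgroup_cyclic ((Submodule.toAddSubgroup I).comap (Int.castAddHom (𝓞 K)))
  have hcmem : ∀ α ∈ I, ∃ j : ℤ, Q.Y α = j * c := by
    intro α hα
    have h1 : Q.Y α ∈ (Submodule.toAddSubgroup I).map (AddMonoidHom.mk' Q.Y Q.Y_add) :=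
      ⟨α, hα, rfl⟩
    rw [hc, AddSubgroup.mem_closure_singleton] at h1
    obtain ⟨j, hj⟩ := h1
    exact ⟨j, by rw [← hj, smul_eq_mul]⟩
  have hbmem : ∀ x : ℤ, (x : 𝓞 K) ∈ I → ∃ j : ℤ, x = j * b := by
    intro x hx
    have h1 : x ∈ (Submodule.toAddSubgroup I).comap (Int.castAddHom (𝓞 K)) := hx
    rw [hb, AddSubgroup.mem_closure_singleton] at h1
    obtain ⟨j, hj⟩ := h1
    exact ⟨j, by rw [← hj, smul_eq_mul]⟩
  have hbI : (b : 𝓞 K) ∈ I := by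
    have h1 : b ∈ (Submodule.toAddSubgroup I).comap (Int.castAddHom (𝓞 K)) := by
      rw [hb]
      exact AddSubgroup.subset_closure rfl
    exact h1
  obtain ⟨e₂, he₂, hYe₂⟩ : ∃ e₂ ∈ I, Q.Y e₂ = c := by
    have h1 : c ∈ (Submodule.toAddSubgroup I).map (AddMonoidHom.mk' Q.Y Q.Y_add) := by
      rw [hc]
      exact AddSubgroup.subset_closure rfl
    obtain ⟨e, he, h2⟩ := h1
    exact ⟨e, he, h2⟩
  have hN : Ideal.absNorm I ≠ 0 := by
    intro h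
    exact hI (Ideal.absNorm_eq_zero_iff.mp h)
  have hb0 : b ≠ 0 := by
    intro h0
    obtain ⟨j, hj⟩ := hbmem (Ideal.absNorm I : ℤ) (by
      have := Ideal.absNorm_mem I
      exact_mod_cast this)
    rw [h0, mul_zero] at hj
    exact hN (by exact_mod_cast hj)
  have hc0 : c ≠ 0 := by
    intro h0
    obtain ⟨j, hj⟩ := hcmem ((b : 𝓞 K) * Q.ω) (I.mul_mem_right _ hbI)
    rw [h0, mul_zero] at hj
    have h1 : Q.Y ((b : 𝓞 K) * Q.ω) = b := Q.Y_eq (x := 0) (by push_cast; ring)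
    rw [h1] at hj
    exact hb0 hj
  have hspan : ∀ α ∈ I, ∃ x y : ℤ, α = x * (b : 𝓞 K) + y * e₂ := by
    intro α hα
    obtain ⟨j, hj⟩ := hcmem α hα
    have h1 : Q.Y (α + ((-j : ℤ) : 𝓞 K) * e₂) = 0 := by
      rw [Q.Y_add, Q.Y_int_mul, hYe₂, hj]
      ring
    obtain ⟨x, hx⟩ := (Q.Y_eq_zero_iff _).mp h1
    have h2 : (x : 𝓞 K) ∈ I := by
      rw [← hx]
      exact I.add_mem hα (I.mul_mem_left _ he₂)
    obtain ⟨i, hi⟩ := hbmem x h2
    refine ⟨i, j, ?_⟩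
    have h3 : (x : 𝓞 K) = i * (b : 𝓞 K) := by
      rw [hi]
      push_cast
      ring
    rw [h3] at hx
    rw [← hx]
    push_cast
    ring
  refine ⟨(b : 𝓞 K), hbI, e₂, he₂, hspan, ?_⟩
  have hY : Q.Y (Q.cj (b : 𝓞 K) * e₂) = b * c := by
    rw [Q.cj_int, Q.Y_int_mul, hYe₂]
  rw [hY]
  obtain ⟨B, hB0, hB1⟩ := LBA_basis Q
  -- the basis of I
  have hli : LinearIndependent ℤ ![(⟨(b : 𝓞 K), hbI⟩ : I), ⟨e₂, he₂⟩] := by
    rw [LinearIndependent.pair_iff]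
    intro s t h
    have h1 : (s : 𝓞 K) * (b : 𝓞 K) + t * e₂ = 0 := by
      have h2 := congrArg (fun z : I => (z : 𝓞 K)) h
      simp only [Submodule.coe_add, Submodule.coe_smul_of_tower, Submodule.coe_zero,
        zsmul_eq_mul] at h2
      exact h2
    have h3 := congrArg Q.Y h1
    have h4 : Q.Y (0 : 𝓞 K) = 0 := (Q.Y_eq_zero_iff _).mpr ⟨0, by push_cast; rfl⟩
    have h5 : Q.Y ((b : ℤ) : 𝓞 K) = 0 := (Q.Y_eq_zero_iff _).mpr ⟨b, rfl⟩
    rw [Q.Y_add, Q.Y_int_mul, Q.Y_int_mul, h4, h5, hYe₂, mul_zero, zero_add] at h3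
    have ht : t = 0 := (mul_eq_zero.mp h3).resolve_right hc0
    refine ⟨?_, ht⟩
    rw [ht] at h1
    push_cast at h1
    rw [zero_mul, add_zero] at h1
    have h6 : ((s * b : ℤ) : 𝓞 K) = ((0 : ℤ) : 𝓞 K) := by
      push_cast
      exact h1
    have h7 : s * b = 0 := by exact_mod_cast h6
    exact (mul_eq_zero.mp h7).resolve_right hb0
  have hsp : ⊤ ≤ Submodule.span ℤ (Set.range ![(⟨(b : 𝓞 K), hbI⟩ : I), ⟨e₂, he₂⟩]) := by
    intro a _
    obtain ⟨x, y, h⟩ := hspan a a.2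
    rw [Matrix.range_cons, Matrix.range_cons, Matrix.range_empty, Set.union_empty,
      Set.singleton_union, Submodule.mem_span_pair]
    refine ⟨x, y, ?_⟩
    apply Subtype.ext
    simp only [Submodule.coe_add, Submodule.coe_smul_of_tower, zsmul_eq_mul]
    exact h.symm
  have hdet := Ideal.natAbs_det_basis_change B I (Module.Basis.mk hli hsp)
  have hcoe : ((fun x : I => (x : 𝓞 K)) ∘ (Module.Basis.mk hli hsp)) = ![(b : 𝓞 K), e₂] := by
    funext i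
    rw [Function.comp_apply, Module.Basis.mk_apply]
    fin_cases i <;> rfl
  obtain ⟨x₂, y₂, hxy⟩ := Q.hspan e₂
  have hy₂ : y₂ = c := by
    rw [← hYe₂, hxy, Q.Y_spec]
  have hbe : (b : 𝓞 K) = (b : 𝓞 K) + (0 : ℤ) * Q.ω := by
    push_cast
    ring
  obtain ⟨r1, r2⟩ := LBA_repr (Q := Q) B hB0 hB1 b 0
  obtain ⟨r3, r4⟩ := LBA_repr (Q := Q) B hB0 hB1 x₂ y₂
  rw [← hbe] at r1 r2
  rw [← hxy] at r3 r4
  rw [hcoe, Module.Basis.det_apply, Matrix.det_fin_two, Module.Basis.toMatrix_apply,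
    Module.Basis.toMatrix_apply, Module.Basis.toMatrix_apply, Module.Basis.toMatrix_apply] at hdet
  have e0 : ![(b : 𝓞 K), e₂] 0 = (b : 𝓞 K) := rfl
  have e1 : ![(b : 𝓞 K), e₂] 1 = e₂ := rfl
  rw [e0, e1, r1, r2, r3, r4, mul_zero, sub_zero, hy₂] at hdet
  rw [← hdet, Int.natCast_natAbs]

end Pool.Agent.helper26.T5
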