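import Pool.Agent.helper82.T5.SpecS

set_option autoImplicit false

/-!
# T5, row SBT: `BT_stmt` from `EQUB1_stmt` and the local count `SQ3_stmt`
-/

namespace Pool.Agent.T5

open Finset NumberField Pool.Agent.helper3.FT Pool.Agent.helper47.RA

/-- the condition of `SQ3_stmt` -/
def SBT_P (d : ℕ) (n k : ℤ) (x : ℤ × ℤ × ℤ) : Prop :=
  (0 ≤ x.1 ∧ x.1 < (d : ℤ) ^ 2) ∧ (0 ≤ x.2.1 ∧ x.2.1 < (d : ℤ) ^ 2) ∧
    (0 ≤ x.2.2 ∧ x.2.2 < (d : ℤ) ^ 2) ∧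
    ∃ d₁ d₂ : ℕ, d = d₁ * d₂ ∧ Nat.Coprime d₁ d₂ ∧ (d₁ : ℤ) ∣ x.1 ∧ (d₁ : ℤ) ∣ x.2.1 ∧
      IsCoprime (d₂ : ℤ) (Zp k x.1 x.2.2 * Lp n k x.1 x.2.1 x.2.2) ∧
      (d₂ : ℤ) ^ 2 ∣ Pp n k x.1 x.2.1 x.2.2

open Classical in
/-- the set of classes -/
noncomputable def SBT_S (d : ℕ) (p : ℕ × ℕ) : Finset (ℤ × ℤ × ℤ) :=
  if Nat.Coprime p.1 d then
    (Ico (0 : ℤ) ((d : ℤ) ^ 2) ×ˢ Ico (0 : ℤ) ((d : ℤ) ^ 2) ×ˢ Ico (0 : ℤ) ((d : ℤ) ^ 2)).filter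
      (SBT_P d p.1 p.2)
  else ∅

theorem SBT_card (hSQ3 : SQ3_stmt) (d : ℕ) (hd : 1 ≤ d) (ho : Odd d) (p : ℕ × ℕ) :
    (SBT_S d p).card ≤ d.divisors.card * d ^ 4 := by
  classical
  unfold SBT_S
  split_ifs with h
  · refine hSQ3 d p.1 p.2 ho hd (Nat.isCoprime_iff_coprime.mpr h) _ ?_
    intro x hx
    exact (Finset.mem_filter.mp hx).2
  · simp

theorem SBT_Z {q k m m' r r' : ℤ} (hm : m ≡ m' [ZMOD q]) (hr : r ≡ r' [ZMOD q]) :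
    Zp k m r ≡ Zp k m' r' [ZMOD q] := by
  unfold Zp
  exact (hm.pow 2).add (hr.mul_left k)

theorem SBT_L {q n k m m' g g' r r' : ℤ} (hm : m ≡ m' [ZMOD q]) (hg : g ≡ g' [ZMOD q])
    (hr : r ≡ r' [ZMOD q]) : Lp n k m g r ≡ Lp n k m' g' r' [ZMOD q] := by
  unfold Lp
  exact ((hm.mul_left (n ^ 2)).mul hg).add ((SBT_Z hm hr).mul_right (k ^ 2))

theorem SBT_A {q n k m m' g g' r r' : ℤ} (hm : m ≡ m' [ZMOD q]) (hg : g ≡ g' [ZMOD q])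
    (hr : r ≡ r' [ZMOD q]) : Ap n k m g r ≡ Ap n k m' g' r' [ZMOD q] := by
  unfold Ap
  exact ((hg.mul_left (n ^ 2)).mul hr).sub ((hm.mul_right k).mul (SBT_Z hm hr))

theorem SBT_PP {q n k m m' g g' r r' : ℤ} (hm : m ≡ m' [ZMOD q]) (hg : g ≡ g' [ZMOD q])
    (hr : r ≡ r' [ZMOD q]) : Pp n k m g r ≡ Pp n k m' g' r' [ZMOD q] := by
  unfold Pp
  exact ((SBT_A hm hg hr).pow 2).sub ((((SBT_Z hm hr).pow 2).mul_left 4).mul (SBT_L hm hg hr))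

/-- the classes of a tuple -/
theorem SBT_mem (hSQ0 : SQ0_stmt) (d : ℕ) (hd : 1 ≤ d) (t : Tpl) (hT : IsT t)
    (hn : Nat.Coprime t.1.1 d) (hD : (d : ℤ) ^ 2 ∣ dis t) (d₁ d₂ : ℕ) (h12 : d = d₁ * d₂)
    (hco : Nat.Coprime d₁ d₂) (hm : (d₁ : ℤ) ∣ t.2.1) (hg : (d₁ : ℤ) ∣ t.2.2.1)
    (hc : IsCoprime (d₂ : ℤ) (t.2.2.2 * lam t)) :
    (t.2.1 % (d : ℤ) ^ 2, t.2.2.1 % (d : ℤ) ^ 2, RR t % (d : ℤ) ^ 2) ∈ SBT_S d t.1 := by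
  obtain ⟨hZ, hL, hP⟩ := hSQ0 t hT
  have hdp : (0 : ℤ) < (d : ℤ) ^ 2 := by
    have : (0 : ℤ) < d := by exact_mod_cast hd
    positivity
  have hb : ∀ a : ℤ, 0 ≤ a % (d : ℤ) ^ 2 ∧ a % (d : ℤ) ^ 2 < (d : ℤ) ^ 2 := fun a =>
    ⟨Int.emod_nonneg a hdp.ne', Int.emod_lt_of_pos a hdp⟩
  have hd1 : (d₁ : ℤ) ∣ (d : ℤ) ^ 2 := by
    rw [h12]; push_cast
    exact Dvd.intro (d₂ * (d₁ * d₂) : ℤ) (by ring)
  have hd2 : (d₂ : ℤ) ∣ (d : ℤ) ^ 2 := by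
    rw [h12]; push_cast
    exact Dvd.intro (d₁ * (d₁ * d₂) : ℤ) (by ring)
  have hd22 : (d₂ : ℤ) ^ 2 ∣ (d : ℤ) ^ 2 := by
    rw [h12]; push_cast
    exact Dvd.intro ((d₁ : ℤ) ^ 2) (by ring)
  have hmod : ∀ a : ℤ, a % (d : ℤ) ^ 2 ≡ a [ZMOD (d : ℤ) ^ 2] := fun a => Int.mod_modEq a _
  have hdv : ∀ a : ℤ, (d₁ : ℤ) ∣ a → (d₁ : ℤ) ∣ a % (d : ℤ) ^ 2 := by
    intro a ha
    rw [Int.emod_def]
    exact dvd_sub ha (hd1.mul_right _)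
  classical
  unfold SBT_S
  rw [if_pos hn, Finset.mem_filter]
  refine ⟨?_, ?_⟩
  · rw [Finset.mem_product, Finset.mem_product, Finset.mem_Ico, Finset.mem_Ico, Finset.mem_Ico]
    exact ⟨hb _, hb _, hb _⟩
  · refine ⟨hb _, hb _, hb _, d₁, d₂, h12, hco, hdv _ hm, hdv _ hg, ?_, ?_⟩
    · have e1 : Zp (t.1.2 : ℤ) (t.2.1 % (d : ℤ) ^ 2) (RR t % (d : ℤ) ^ 2) *
          Lp (t.1.1 : ℤ) (t.1.2 : ℤ) (t.2.1 % (d : ℤ) ^ 2) (t.2.2.1 % (d : ℤ) ^ 2)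
            (RR t % (d : ℤ) ^ 2) ≡
          Zp (t.1.2 : ℤ) t.2.1 (RR t) * Lp (t.1.1 : ℤ) (t.1.2 : ℤ) t.2.1 t.2.2.1 (RR t)
          [ZMOD (d₂ : ℤ)] :=
        ((SBT_Z (hmod _) (hmod _)).mul (SBT_L (hmod _) (hmod _) (hmod _))).of_dvd hd2
      rw [hZ, hL] at e1
      have e2 := e1.symm.dvd
      obtain ⟨c, hcc⟩ := e2
      have e3 : Zp (t.1.2 : ℤ) (t.2.1 % (d : ℤ) ^ 2) (RR t % (d : ℤ) ^ 2) *
          Lp (t.1.1 : ℤ) (t.1.2 : ℤ) (t.2.1 % (d : ℤ) ^ 2) (t.2.2.1 % (d : ℤ) ^ 2)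
            (RR t % (d : ℤ) ^ 2) =
          (t.1.1 : ℤ) ^ 6 * (t.2.2.2 * lam t) + (d₂ : ℤ) * c := by
        linear_combination hcc
      change IsCoprime (d₂ : ℤ) (Zp (t.1.2 : ℤ) (t.2.1 % (d : ℤ) ^ 2) (RR t % (d : ℤ) ^ 2) *
          Lp (t.1.1 : ℤ) (t.1.2 : ℤ) (t.2.1 % (d : ℤ) ^ 2) (t.2.2.1 % (d : ℤ) ^ 2)
            (RR t % (d : ℤ) ^ 2))
      rw [e3]
      refine IsCoprime.add_mul_left_right ?_ c
      refine IsCoprime.mul_right ?_ hc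
      refine IsCoprime.pow_right ?_
      refine Nat.isCoprime_iff_coprime.mpr ?_
      refine Nat.Coprime.symm (Nat.Coprime.coprime_dvd_right ?_ hn)
      exact Dvd.intro_left d₁ h12.symm
    · have e1 : Pp (t.1.1 : ℤ) (t.1.2 : ℤ) (t.2.1 % (d : ℤ) ^ 2) (t.2.2.1 % (d : ℤ) ^ 2)
            (RR t % (d : ℤ) ^ 2) ≡ Pp (t.1.1 : ℤ) (t.1.2 : ℤ) t.2.1 t.2.2.1 (RR t)
            [ZMOD (d₂ : ℤ) ^ 2] :=
        (SBT_PP (hmod _) (hmod _) (hmod _)).of_dvd hd22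
      rw [hP] at e1
      have e2 : (d₂ : ℤ) ^ 2 ∣ (t.1.1 : ℤ) ^ 10 * dis t :=
        (hd22.trans hD).mul_left _
      exact (Int.ModEq.dvd_iff e1).mpr e2

theorem SBT (hSQ0 : SQ0_stmt) (hSQ3 : SQ3_stmt) : ∀ δ : ℝ, SBT_stmt δ := by
  intro δ hδ _ hE κ hκ
  obtain ⟨C, N₀, hC, hE⟩ := hE κ hκ
  refine ⟨C, max N₀ 1, hC, ?_⟩
  intro N Y hN hY1 hY2 d hd3 hdo hdN F hF
  have hN0 : N₀ ≤ N := (le_max_left _ _).trans hN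
  have hN1 : 1 ≤ N := (le_max_right _ _).trans hN
  have hNp : 0 < N := by linarith
  have hd1 : 1 ≤ d := by omega
  have hdr : (1 : ℝ) ≤ d := by exact_mod_cast hd1
  have hdp : (0 : ℝ) < d := by linarith
  have hd2 : (d : ℝ) ^ 2 ≤ N ^ (δ / 5000) := by
    calc (d : ℝ) ^ 2 ≤ (N ^ (δ / 10000)) ^ 2 := by gcongr
      _ = N ^ (δ / 5000) := by
        rw [← Real.rpow_natCast, ← Real.rpow_mul hNp.le]
        congr 1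
        push_cast
        ring
  have key := hE N Y (N * (d : ℝ) ^ 2) hN0 hY1 hY2 (by nlinarith [one_le_pow₀ hdr (n := 2)]) (by
      rw [Real.rpow_add hNp, Real.rpow_one]
      gcongr) (d ^ 2) (Nat.one_le_pow _ _ hd1) (by push_cast; exact hd2)
    (d.divisors.card * d ^ 4) (SBT_S d) (SBT_card hSQ3 d hd1 hdo) F (by
      intro t ht
      obtain ⟨hcen, hn, hD, d₁, d₂, h12, hco, hm, hg, hc⟩ := hF t ht
      refine ⟨hcen, Nat.Coprime.pow_right 2 hn, _,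
        SBT_mem hSQ0 d hd1 t hcen.tt hn hD d₁ d₂ h12 hco hm hg hc, ?_, ?_, ?_⟩
      · push_cast
        exact (Int.mod_modEq t.2.1 ((d : ℤ) ^ 2)).dvd
      · push_cast
        exact (Int.mod_modEq t.2.2.1 ((d : ℤ) ^ 2)).dvd
      · push_cast
        exact (Int.mod_modEq (RR t) ((d : ℤ) ^ 2)).dvd)
  have heq : C * ((d.divisors.card * d ^ 4 : ℕ) : ℝ) / ((d ^ 2 : ℕ) : ℝ) ^ 3 =
      C * d.divisors.card / (d : ℝ) ^ 2 := by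
    push_cast
    field_simp
  rw [heq] at key
  exact key

end Pool.Agent.T5
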